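import Pool.Agent.H629.CG.Stm

/-!
# MP_e22585_pr: one negative moment
-/

set_option autoImplicit false

namespace Pool.Agent.H187.CG.NEG0

open MeasureTheory ProbabilityTheory Filter Topology Set
open scoped ENNReal NNReal
open Pool.Agent.H629.CG

lemma meas_mas {Ω : Type} [MeasurableSpace Ω] (A : Set ℝ) (X : ℝ → Ω → ℝ)
    (hX : Measurable (Function.uncurry X)) : Measurable (mas A X) := by
  have h : Measurable (fun p : ℝ × Ω => ENNReal.ofReal (Real.exp (X p.1 p.2))) :=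
    (Real.measurable_exp.comp hX).ennreal_ofReal
  exact h.lintegral_prod_left' (μ := volume.restrict A)

lemma mas_mono {Ω : Type} {A B : Set ℝ} (X : ℝ → Ω → ℝ) (h : A ⊆ B) (ω : Ω) :
    mas A X ω ≤ mas B X ω := lintegral_mono_set h

lemma rpow_neg_anti {x y : ℝ≥0∞} (h : x ≤ y) {s : ℝ} (hs : 0 < s) : y ^ (-s) ≤ x ^ (-s) := by
  rw [ENNReal.rpow_neg, ENNReal.rpow_neg]
  exact ENNReal.inv_le_inv.2 (ENNReal.rpow_le_rpow h hs.le)

lemma mom_anti {Ω : Type} [MeasurableSpace Ω] (P : Measure Ω) {A B : Set ℝ} (X : ℝ → Ω → ℝ)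
    (h : A ⊆ B) {s : ℝ} (hs : 0 < s) : mom P B X (-s) ≤ mom P A X (-s) :=
  lintegral_mono fun ω => rpow_neg_anti (mas_mono X h ω) hs

lemma vol_Hf : volume Hf = ENNReal.ofReal (1 / 2) := by
  unfold Hf
  rw [Real.volume_Ico]
  norm_num

lemma meas_Hf : MeasurableSet Hf := measurableSet_Ico

lemma exists_small (B L : ℝ) (hB : 0 ≤ B) (hL : 0 ≤ L) :
    ∃ s : ℝ, 0 < s ∧ Real.exp (((-s) ^ 2 - (-s)) / 2 * B + s * L) ≤ 2 := by
  have hl2 : 0 < Real.log 2 := Real.log_pos (by norm_num)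
  have hl2' : Real.log 2 ≤ 1 := by
    have := Real.log_two_lt_d9
    linarith
  have hpos : 0 < B + L + 1 := by linarith
  refine ⟨Real.log 2 / (B + L + 1), div_pos hl2 hpos, ?_⟩
  set s := Real.log 2 / (B + L + 1) with hs
  have hs0 : 0 < s := div_pos hl2 hpos
  have hs1 : s ≤ 1 := by
    rw [hs, div_le_one hpos]
    linarith
  have hsB : s * (B + L + 1) = Real.log 2 := by
    rw [hs]
    field_simp
  have h1 : ((-s) ^ 2 - (-s)) / 2 ≤ s := by nlinarith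
  have h2 : ((-s) ^ 2 - (-s)) / 2 * B ≤ s * B := mul_le_mul_of_nonneg_right h1 hB
  have h3 : ((-s) ^ 2 - (-s)) / 2 * B + s * L ≤ Real.log 2 := by nlinarith
  calc Real.exp (((-s) ^ 2 - (-s)) / 2 * B + s * L) ≤ Real.exp (Real.log 2) :=
        Real.exp_le_exp.2 h3
    _ = 2 := Real.exp_log (by norm_num)

lemma two_quarter : (2 : ℝ≥0∞) * (1 / 4) = 2⁻¹ := by
  have h4 : (4 : ℝ≥0∞) = 2 * 2 := by norm_num
  have h1 : (1 : ℝ≥0∞) / 4 = 2⁻¹ * 2⁻¹ := by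
    rw [h4, ENNReal.div_eq_inv_mul, mul_one,
      ENNReal.mul_inv (Or.inl (by norm_num)) (Or.inl (by norm_num))]
  rw [h1, ← mul_assoc, ENNReal.mul_inv_cancel (by norm_num) (by norm_num), one_mul]

theorem t_NEG0 : S_JEN → S_GEO → S_SUMN → S_PZ → S_REC → S_R2 → S_CMP → S_POS → S_NEG0 := by
  intro hJEN hGEO hSUMN hPZ hREC hR2 hCMP hPOS
  intro μ r ε₀ Ω _ P X hμ hμ2 hr hε₀ hε₀' hF
  -- the exponent p
  have h2μ : 1 < 2 / μ := by rw [lt_div_iff₀ hμ]; linarith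
  obtain ⟨C₁, hC₁, hC₁b⟩ := hPOS μ r ε₀ Ω P X hμ hμ2 hr hε₀ hε₀' hF ((1 + 2 / μ) / 2)
    (by linarith) (by linarith)
  obtain ⟨θ, hθ, hθb⟩ := hPZ ((1 + 2 / μ) / 2) (1 / 4) C₁ (by linarith) (by norm_num) hC₁
  have hvol0 : (0 : ℝ≥0∞) < volume Hf := by
    rw [vol_Hf]; exact ENNReal.ofReal_pos.2 (by norm_num)
  have hvolT : volume Hf ≠ ∞ := by rw [vol_Hf]; exact ENNReal.ofReal_ne_top
  have hmeas : ∀ ε ∈ Ioo 0 ε₀, Measurable (mas Hf (X ε)) := fun ε hε =>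
    meas_mas Hf (X ε) (hF.lnf ε hε).meas
  have hPθ : ∀ ε ∈ Ioo 0 ε₀, P ε {ω | mas Hf (X ε) ω ≤ ENNReal.ofReal (1 / 4)} ≤ θ := by
    intro ε hε
    have := hF.prob ε hε
    refine hθb (Ω ε) (P ε) (mas Hf (X ε)) (hmeas ε hε) ?_ (hC₁b ε hε)
    have h := (hJEN (Ω ε) (P ε) Hf (X ε) _ meas_Hf hvol0 hvolT (hF.lnf ε hε) 1).2.2
    have h' : mom (P ε) Hf (X ε) 1 = ∫⁻ ω, mas Hf (X ε) ω ∂(P ε) := by
      unfold mom
      simp only [ENNReal.rpow_one]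
    rw [← h', h, vol_Hf]
    norm_num
  -- the number of blocks
  obtain ⟨m, hm⟩ : ∃ m : ℕ, θ ^ m ≤ 1 / 4 := by
    have ht := ENNReal.tendsto_pow_atTop_nhds_zero_of_lt_one hθ
    have he : ∀ᶠ n : ℕ in atTop, θ ^ n < 1 / 4 :=
      ht.eventually (gt_mem_nhds (by norm_num))
    obtain ⟨m, hm⟩ := he.exists
    exact ⟨m, hm.le⟩
  obtain ⟨C, hC, hCb⟩ := hCMP μ r hμ hr 1 one_pos
  set k : ℝ := 2 * ((m + 1 : ℕ) : ℝ) with hk
  have hk2 : 2 ≤ k := by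
    have : (1 : ℝ) ≤ ((m + 1 : ℕ) : ℝ) := by exact_mod_cast Nat.succ_pos m
    rw [hk]; linarith
  have hk0 : 0 < k := by linarith
  have hlogk : 0 ≤ Real.log k := Real.log_nonneg (by linarith)
  obtain ⟨s, hs, hsb⟩ := exists_small (μ * (1 + 1) * Real.log k + C) (Real.log k)
    (by positivity) hlogk
  refine ⟨s, hs, ?_⟩
  -- the constant in front
  have hD : ex (((-s) ^ 2 - (-s)) / 2 * (μ * (1 + 1) * Real.log k + C)) *
      ENNReal.ofReal k ^ (-(-s)) ≤ 2 := by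
    have e1 : ENNReal.ofReal k ^ (-(-s)) = ENNReal.ofReal (Real.exp (s * Real.log k)) := by
      rw [neg_neg, ENNReal.ofReal_rpow_of_pos hk0]
      congr 1
      rw [Real.rpow_def_of_pos hk0, mul_comm]
    rw [e1, ex, ← ENNReal.ofReal_mul (Real.exp_pos _).le, ← Real.exp_add]
    calc ENNReal.ofReal (Real.exp (((-s) ^ 2 - (-s)) / 2 * (μ * (1 + 1) * Real.log k + C) +
          s * Real.log k)) ≤ ENNReal.ofReal 2 := ENNReal.ofReal_le_ofReal hsb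
      _ = 2 := by norm_num
  set f : ℝ → ℝ≥0∞ := fun ε => mom (P ε) Hf (X ε) (-s) with hf
  set Cc : ℝ≥0∞ := 2 * ENNReal.ofReal (1 / 4) ^ (-s) with hCc
  have hq : ENNReal.ofReal (1 / 4) ^ (-s) ≠ ∞ := by
    rw [ENNReal.ofReal_rpow_of_pos (by norm_num)]
    exact ENNReal.ofReal_ne_top
  have hCcT : Cc ≠ ∞ := ENNReal.mul_ne_top (by norm_num) hq
  -- one step of the recursion
  have hstep : ∀ ε, 0 < ε → k * ε < ε₀ → f ε ≤ f (k * ε) / 2 + Cc := by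
    intro ε hε hkε
    have hεlt : ε < ε₀ := lt_of_le_of_lt (by nlinarith) hkε
    have hkε' : k * ε ∈ Ioo 0 ε₀ := ⟨mul_pos hk0 hε, hkε⟩
    have := hF.prob (k * ε) hkε'
    have hsub : evn (m + 1) 0 ⊆ Hf := ((hGEO (m + 1) (Nat.succ_pos m)).1 0 (by norm_num)).2.1
    have h1 : f ε ≤ mom (P ε) (evn (m + 1) 0) (X ε) (-s) := mom_anti (P ε) (X ε) hsub hs
    have h2 := hCb ε₀ Ω P X hε₀ hε₀' hF (m + 1) (Nat.succ_pos m) ε hε hkε 0 (by norm_num) (-s)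
      (Or.inr (by linarith))
    have h3 := hSUMN (Ω (k * ε)) (P (k * ε)) (mas Hf (X (k * ε))) (hmeas _ hkε') m s (1 / 4) hs
      (by norm_num)
    have h4 : (P (k * ε) {ω | mas Hf (X (k * ε)) ω ≤ ENNReal.ofReal (1 / 4)}) ^ m *
        ∫⁻ ω, mas Hf (X (k * ε)) ω ^ (-s) ∂(P (k * ε)) ≤ 1 / 4 * f (k * ε) := by
      refine mul_le_mul' ?_ le_rfl
      exact (pow_le_pow_left' (hPθ _ hkε') m).trans hm
    calc f ε ≤ mom (P ε) (evn (m + 1) 0) (X ε) (-s) := h1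
      _ ≤ ex (((-s) ^ 2 - (-s)) / 2 * (μ * (1 + 1) * Real.log k + C)) *
          ENNReal.ofReal k ^ (-(-s)) *
          ∫⁻ η : Fin (m + 1) → Ω (k * ε), (∑ i, mas Hf (X (k * ε)) (η i)) ^ (-s)
            ∂(Measure.pi fun _ => P (k * ε)) := h2
      _ ≤ 2 * (ENNReal.ofReal (1 / 4) ^ (-s) + 1 / 4 * f (k * ε)) :=
          mul_le_mul' hD (h3.trans (add_le_add le_rfl h4))
      _ = f (k * ε) / 2 + Cc := by
          rw [mul_add, add_comm, ← hCc, ← mul_assoc, two_quarter, ENNReal.div_eq_inv_mul]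
  -- the base range
  obtain ⟨V, hV⟩ := (hR2 r hr).2.2 (ε₀ / k) (div_pos hε₀ hk0)
  set C' : ℝ≥0∞ := (volume Hf) ^ (-s) * ex (((-s) ^ 2 - (-s)) / 2 * (μ * V)) with hC'
  have hC'T : C' ≠ ∞ := by
    refine ENNReal.mul_ne_top ?_ ENNReal.ofReal_ne_top
    rw [vol_Hf, ENNReal.ofReal_rpow_of_pos (by norm_num)]
    exact ENNReal.ofReal_ne_top
  have hbase : ∀ ε, 0 < ε → ε < ε₀ → ε₀ ≤ k * ε → f ε ≤ C' := by
    intro ε hε hεlt hkε
    have := hF.prob ε ⟨hε, hεlt⟩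
    refine (hJEN (Ω ε) (P ε) Hf (X ε) _ meas_Hf hvol0 hvolT (hF.lnf ε ⟨hε, hεlt⟩) (-s)).1 (μ * V)
      ?_ (Or.inr (by linarith))
    intro t _
    refine mul_le_mul_of_nonneg_left ?_ hμ.le
    refine hV ε _ ?_ (by linarith) (abs_nonneg _) ?_
    · rw [div_le_iff₀ hk0]; linarith
    · simp
  refine ⟨2 * Cc + C', ENNReal.add_ne_top.2 ⟨ENNReal.mul_ne_top (by norm_num) hCcT, hC'T⟩, ?_⟩
  intro ε hε
  exact hREC k ε₀ (by linarith) hε₀ f Cc C' hstep hbase ε hε.1 hε.2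

end Pool.Agent.H187.CG.NEG0
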